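import Pool.Agent.H9.UZ.Tar

/-!
# MP_f6fd33_lc, FB5: transport in the first base system
-/

set_option linter.unusedVariables false

open Ordinal Order Set
open scoped ZFSet

namespace SE.UZ

open SF CAA

theorem pf_FB5 (h1 : T_FB1) (h2 : T_FB2) (hI : T_QI1) (hId : T_QI1i) (hG : T_QI3) : T_FB5 := by
  intro D κ hA b hb
  obtain ⟨hOb, hu, hle, -, hT, -⟩ := h1 D κ hA b hb
  obtain ⟨-, -, hSe⟩ := h2 D κ hA b hb
  have hl : b.l = 3 := by rw [hb]; rfl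
  have hS : ∀ e, ¬ b.S e := by
    intro e he
    rw [hb] at he
    exact he
  have hSl : Sl b.l b.S := fun e he => absurd he (hS e)
  have hV : ∀ s, Vws b.S s := fun s i _ e he => absurd he (hS e)
  have hN : ∀ x ∈ D.H, D.N x := fun x hx => hA.ok.zfc.toZFCm.toZFm.trans _ hA.ok.hN x hx
  have key : ∀ B π ρ', CS D B → Isl D b.l b.S π B ρ' →
      CS D ρ' ∧ π ∈ D.H ∧ b.T π B = ρ' ∧ im π B = ρ' ∧ Isl D b.l b.S (inv π) ρ' B := by
    intro B π ρ' hB hi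
    obtain ⟨⟨-, -, him, hπ, -, -, hinv⟩, -⟩ := hI D hA.ok b.l b.S π B ρ' hSl hi
    exact ⟨hi.c', hπ, (hT π B hπ hB).trans him, him, hinv⟩
  refine ⟨?_, ?_, ?_⟩
  · intro B hBO π ρ' hi
    have hB := (hOb B).1 hBO
    rw [hu B hB] at hi
    obtain ⟨hρ, hπ, hTB, him, hinv⟩ := key B π ρ' hB hi
    obtain ⟨-, -, hTi, -, -⟩ := key ρ' (inv π) B hρ hinv
    refine ⟨?_, ?_, ?_, ?_⟩
    · rw [hTB]
      exact (hOb ρ').2 hρ
    · rw [hTB]
      exact hu ρ' hρ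
    · rw [hTB]
      exact hTi
    · intro C hC
      obtain ⟨hC1, -, hCB⟩ := (hle C B).1 hC
      rw [hu C hC1]
      obtain ⟨-, -, -, -, hres⟩ := hI D hA.ok b.l b.S π B ρ' hSl hi
      obtain ⟨hiC, -, hsub, -⟩ := hres C (hN C hC1.h) hCB (fun i hi => (hC1.c i hi).2) (hV C)
      obtain ⟨hρC, -, hTC, -, -⟩ := key C (rst C π) (im π C) hC1 hiC
      rw [hTC, hTB]
      exact (hle _ _).2 ⟨hρC, hρ, hsub⟩
  · intro B hBO
    have hB := (hOb B).1 hBO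
    rw [hu B hB]
    obtain ⟨hi, -⟩ := hId D hA.ok b.l b.S B hSl hB (hV B)
    exact (key B (idm B) B hB hi).2.2.1
  · intro B hBO π ρ' hi G hGn a x
    have hB := (hOb B).1 hBO
    rw [hu B hB] at hi hGn
    obtain ⟨hρ, hπ, hTB, him, hinv⟩ := key B π ρ' hB hi
    obtain ⟨hG', hW, -, -, -, hres⟩ := hG D hA.ok b.l b.S π B ρ' hSl hi G hGn _ rfl
    obtain ⟨-, -, hR, -⟩ := hres B (hN B hB.h) (fun _ h => h) (fun i hi => (hB.c i hi).2)
    rw [him] at hR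
    have hWe : D.W (gi D π ρ' G) = D.W G := by
      funext y
      exact propext (hW y)
    rw [hTB, hSe B hB G hGn a x, hSe ρ' hρ (gi D π ρ' G) hG' a x, hWe, hR, hR]

end SE.UZ
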