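import Pool.Agent.H72.UZ.TarZ
import Pool.Agent.H45.UZ.TarP
import Pool.Agent.H41.UZ.Dc

/-!
# MP_f6fd33_lc, Q1c: the secured facts form a set of the ground model
-/

set_option linter.unusedVariables false

open Ordinal Order Set
open scoped ZFSet

namespace SE.UZ

open SF _root_.UZ

/-- the set of labels of a tower is a closed set in `H` -/
theorem q1c_ut (hL : Lb) (hPWE : T_PWE) {D : Cx} {κ : V} {b : BS} (hA : Amb D κ) (hb : b.Ok D κ)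
    {T : V} (hT : b.Tw D κ T) : b.ut κ T ∈ D.H ∧ Cld D.L (b.ut κ T) := by
  have hD := hA.ok
  have hN := hD.zfm
  have hκ : D.N κ := hD.nH hA.kH
  have hCS : ∀ ξ ∈ κ, CS D (b.u (tK T ξ)) := fun ξ hξ =>
    hb.cs _ ((hPWE b D _ _ _).1 (hT.w ξ hξ).w).wo.o.o
  have hfN : D.N (resS κ fun ξ => b.u (tK T ξ)) := by
    have h1 : TN D.N (fun u => resS κ fun ξ => app b.U (fst (app T ξ))) :=
      TN.resS (G := fun u => app b.U (fst (app T (u 0)))) hN (TN.cst hκ)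
        (TN.app hN (TN.cst hb.nU) (TN.fst hN (TN.app hN (TN.cst hT.n) (TN.var hN 0))))
    exact TN.mem hN h1 (u := fun _ => κ) (fun _ => hκ)
  have hrg : ∀ y, y ∈ rg (resS κ fun ξ => b.u (tK T ξ)) ↔ ∃ ξ ∈ κ, b.u (tK T ξ) = y := by
    intro y
    rw [mem_rg]
    constructor
    · rintro ⟨x, hx⟩
      obtain ⟨h1, h2⟩ := pair_mem_resS.1 hx
      exact ⟨x, h1, h2.symm⟩
    · rintro ⟨x, h1, h2⟩
      exact ⟨x, pair_mem_resS.2 ⟨h1, h2.symm⟩⟩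
  have hutr : b.ut κ T = (⋃₀ (rg (resS κ fun ξ => b.u (tK T ξ))) : ZFSet) := by
    unfold BS.ut
    congr 1
    ext y
    rw [hrg, mem_imS]
  have hH : rg (resS κ fun ξ => b.u (tK T ξ)) ∈ D.H := by
    refine ((hL.BR D hD).2.1 _ κ hfN (svl_resS _ _) (dm_resS _ _) hA.kH ?_).1
    intro y hy
    obtain ⟨ξ, hξ, rfl⟩ := (hrg y).1 hy
    exact (hCS ξ hξ).h
  rw [hutr]
  constructor
  · have hH' : ZFm (· ∈ D.H) := hD.zfH
    exact TN.mem hH' (TN.sUnion hH' (TN.cst hH)) (u := fun _ => D.L) (fun _ => hD.lH)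
  · refine hL.BA.2.2.2.2.2.1 D.L _ fun y hy => ?_
    obtain ⟨ξ, hξ, rfl⟩ := (hrg y).1 hy
    exact (hCS ξ hξ).c

/-- the decided relation -/
def q1cS (v : ℕ → V) : Prop :=
  fst (snd (v 1)) ∈ v 0 ∧ ∃ ξ ∈ v 2, ∃ w ∈ snd (app (fst (v 1)) ξ),
    fst w ∈ v 0 ∧ ev (v 0) (fst (snd w)) = prl (kc 0) (prl (ev (v 0) (fst (snd (snd (v 1)))))
      (ev (v 0) (snd (snd (snd (v 1))))))

theorem q1c_dfb (hF : Dfn) : Dfb ZFm (fun _ v => q1cS v) := by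
  refine (Dfb.mem (Tm.fst (Tm.snd (Tm.var 1))) (Tm.var 0)).and ?_
  refine Dfb.bex (R := fun _ v => ∃ w ∈ snd (app (fst (v 2)) (v 0)),
    fst w ∈ v 1 ∧ ev (v 1) (fst (snd w)) = prl (kc 0) (prl (ev (v 1) (fst (snd (snd (v 2)))))
      (ev (v 1) (snd (snd (snd (v 2))))))) ktr_zfm (Tm.var 2) ?_
  refine Dfb.bex (R := fun _ v =>
    fst (v 0) ∈ v 2 ∧ ev (v 2) (fst (snd (v 0))) = prl (kc 0) (prl (ev (v 2) (fst (snd (snd (v 3)))))
      (ev (v 2) (snd (snd (snd (v 3))))))) ktr_zfm (Tm.snd (Tm.app (Tm.fst (Tm.var 2)) (Tm.var 0))) ?_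
  have hev : ∀ {f g : (V → Prop) → (ℕ → V) → V}, Tm ZFm f → Tm ZFm g →
      Tm ZFm (fun M v => ev (f M v) (g M v)) := fun hf hg =>
    Tm.at2 (F := fun _ x y => ev x y) hF.ev hf hg
  have hpr : ∀ {f g : (V → Prop) → (ℕ → V) → V}, Tm ZFm f → Tm ZFm g →
      Tm ZFm (fun M v => prl (f M v) (g M v)) := fun hf hg =>
    Tm.at2 (F := fun _ x y => prl x y) hF.prl hf hg
  exact (Dfb.mem (Tm.fst (Tm.var 0)) (Tm.var 2)).and
    (Dfb.eq (hev (Tm.var 2) (Tm.fst (Tm.snd (Tm.var 0))))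
      (hpr (hF.kc 0) (hpr (hev (Tm.var 2) (Tm.fst (Tm.snd (Tm.snd (Tm.var 3)))))
        (hev (Tm.var 2) (Tm.snd (Tm.snd (Tm.snd (Tm.var 3))))))))

theorem pf_Q1c (hL : Lb) (hPWE : T_PWE) (hQ : T_Q1a) : T_Q1c := by
  intro D κ b hA hb
  obtain ⟨X0, Y0, Z0, hX0, -, -, hX, -⟩ := hQ D κ b hA hb
  have hD := hA.ok
  have hN := hD.zfm
  have hκ : D.N κ := hD.nH hA.kH
  have hHis : ∀ T, b.Tw D κ T → ∀ ξ ∈ κ, His D (b.u (tK T ξ)) (tH T ξ) (b.rho D ξ) :=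
    fun T hT ξ hξ => ((hPWE b D _ _ _).1 (hT.w ξ hξ).w).wo.hs
  -- the condition that `X` is decided
  have hDct : ∀ T, b.Tw D κ T → ∀ G X, (Dct κ T G X ↔ ∃ ξ ∈ κ, ∃ w ∈ snd (app T ξ),
      fst w ∈ G ∧ ev G (fst (snd w)) = X) := by
    intro T hT G X
    refine exists_congr fun ξ => and_congr_right fun hξ => ?_
    constructor
    · rintro ⟨y, e, q, hq, X', Y', h1, h2, h3⟩
      refine ⟨_, h1, ?_, ?_⟩
      · simpa [ht] using hq
      · simpa [ht] using h2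
    · rintro ⟨w, hw, h1, h2⟩
      obtain ⟨q, hq, X', Y', e, he, -, -, rfl⟩ := (hHis T hT ξ hξ).m w hw
      refine ⟨ev G Y', e, q, ?_, X', Y', hw, ?_, rfl⟩
      · simpa [ht] using h1
      · simpa [ht] using h2
  have hr : TN D.N (fun u => b.ut κ (fst (u 0))) := by
    have h1 : TN D.N (fun u => (⋃₀ (imS κ fun ξ => app b.U (fst (app (fst (u 0)) ξ))) : ZFSet)) :=
      TN.iUn (G := fun u => app b.U (fst (app (fst (u 1)) (u 0)))) hN (TN.cst hκ)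
        (TN.app hN (TN.cst hb.nU) (TN.fst hN (TN.app hN (TN.fst hN (TN.var hN 1)) (TN.var hN 0))))
    exact h1
  have hNam : ∀ {F : (ℕ → V) → V}, TN D.N F →
      DN D.N (fun u => Nam D.L (b.ut κ (fst (u 0))) (F u)) := fun hF =>
    DN.of3 hN (P := fun _ x y z => Nam x y z) hL.BBb.1 (tnL hD) hr hF
  have hC : DN D.N (fun u => fst (snd (u 0)) ∈ Pos D.L (b.ut κ (fst (u 0))) ∧
      Nam D.L (b.ut κ (fst (u 0))) (fst (snd (snd (u 0)))) ∧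
      Nam D.L (b.ut κ (fst (u 0))) (snd (snd (snd (u 0))))) :=
    (DN.mem hN (TN.fst hN (TN.snd hN (TN.var hN 0))) (tnP hL hD hr)).and hN
      ((hNam (TN.fst hN (TN.snd hN (TN.snd hN (TN.var hN 0))))).and hN
        (hNam (TN.snd hN (TN.snd hN (TN.snd hN (TN.var hN 0))))))
  have hDN := Dc.dnG hL hD hr hC ((Dc.base hL hD hr (q1c_dfb hL.F)).not hL hD hr)
  have hXN := hDN.sepN hN (a := ZFSet.prod X0 (ZFSet.prod D.H (ZFSet.prod D.H D.H)))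
    (TN.mem hN (TN.prod hN (TN.cst hX0) (TN.prod hN (tnH hD) (TN.prod hN (tnH hD) (tnH hD))))
      (u := fun _ => κ) (fun _ => hκ)) (u := fun _ => κ) (fun _ => hκ)
  refine ⟨_, hXN, fun z => ?_⟩
  rw [ZFSet.mem_sep]
  constructor
  · rintro ⟨hz, hCr, ⟨hp, ha, hx⟩, hG⟩
    obtain ⟨T, hT, w, hw, rfl⟩ := ZFSet.mem_prod.1 hz
    obtain ⟨p, hpH, w', hw', rfl⟩ := ZFSet.mem_prod.1 hw
    obtain ⟨a, haH, x, hxH, rfl⟩ := ZFSet.mem_prod.1 hw'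
    simp only [cons_zero, fst_pair, snd_pair] at hCr hp ha hx hG
    have hTw := (hX T).1 hT
    refine ⟨T, p, a, x, hTw, hp, ⟨hD.nH haH, ha⟩, ⟨hD.nH hxH, hx⟩, rfl, ?_⟩
    intro G hGn hpG hdc
    apply hG G hGn
    unfold q1cS
    simp only [cons_zero, cons_succ, fst_pair, snd_pair]
    exact ⟨by simpa using hpG, by simpa using (hDct T hTw G _).1 hdc⟩
  · rintro ⟨T, p, a, x, hTw, hp, ha, hx, rfl, hG⟩
    obtain ⟨hutH, hutC⟩ := q1c_ut hL hPWE hA hb hTw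
    obtain ⟨-, -, hpH, -, hnH⟩ := (hL.BR D hD).2.2.2.2.1 _ hutH
    refine ⟨?_, ?_⟩
    · rw [ZFSet.pair_mem_prod, ZFSet.pair_mem_prod, ZFSet.pair_mem_prod]
      exact ⟨(hX T).2 hTw, hpH p hp, hnH a ha.1 ha.2, hnH x hx.1 hx.2⟩
    · simp only [cons_zero, fst_pair, snd_pair]
      refine ⟨?_, ⟨hp, ha.2, hx.2⟩, ?_⟩
      · unfold Cr
        simp only [cons_zero, fst_pair]
        exact ⟨hutH, hutC⟩
      · intro G hGn hS
        unfold q1cS at hS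
        simp only [cons_zero, cons_succ, fst_pair, snd_pair] at hS
        exact hG G hGn (by simpa using hS.1) ((hDct T hTw G _).2 (by simpa using hS.2))

end SE.UZ
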